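import Pool.Agent.J4H30.LV.Wl2
import Pool.Agent.H435R3.Weil.Main

/-!
# Weil bound for characters of composite order (copies of H435R3/Weil: Bound, Main)
-/

set_option autoImplicit false

namespace Pool.Agent.J4H30.LV.Weil

open Polynomial Finset Pool.Agent.H341R2.Sharp IntermediateField
open Pool.Agent.H435R3.Weil

open Classical in
open WELE in
theorem wele (t d : ℕ) (ht2 : 2 ≤ t) : ∃ K : ℝ, 0 ≤ K ∧ ∀ (E : Type) [Field E] [Fintype E],
    t ∣ Fintype.card E - 1 → ∀ ψ : MulChar E ℂ, ψ ≠ 1 → ψ ^ t = 1 → ∀ f : E[X],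
    f.natDegree ≤ d → f ≠ 0 → CopG t f →
    ‖∑ x : E, ψ (f.eval x)‖ ≤ K * Real.sqrt (Fintype.card E) := by
  obtain ⟨K0, hK0, hcrd⟩ := crd t d ht2
  have ht : 0 < t := by omega
  refine ⟨t ^ 2 * K0 + t * d + d, by positivity, ?_⟩
  intro E _ _ htq χ hχ1 hχ f hfd hf hft
  have hq1 : (1 : ℝ) ≤ Real.sqrt (Fintype.card E) := by
    rw [Real.one_le_sqrt]
    exact_mod_cast Fintype.card_pos
  obtain ⟨Q, hQ⟩ := htq
  have hq2 : 2 ≤ Fintype.card E := Fintype.one_lt_card
  have hQ' : t * Q + 1 = Fintype.card E := by omega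
  have hQ0 : 0 < Q := by
    rcases Nat.eq_zero_or_pos Q with h0 | h0
    · rw [h0] at hQ'
      omega
    · exact h0
  have hdeg : 1 ≤ f.natDegree := by
    by_contra hlt
    have h0 : f.natDegree = 0 := by omega
    obtain ⟨c, hc⟩ := natDegree_eq_zero.1 h0
    have h1 : t ∣ 1 := hft 1 (fun v => by rw [← hc, rootMultiplicity_C, mul_zero]; exact dvd_zero t)
    have h2 := Nat.dvd_one.1 h1
    omega
  by_cases hqd : Fintype.card E ≤ d
  · have h1 : ‖∑ x : E, χ (f.eval x)‖ ≤ Fintype.card E := by
      refine (norm_sum_le _ _).trans ?_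
      calc ∑ x : E, ‖χ (f.eval x)‖ ≤ ∑ x : E, (1 : ℝ) :=
            Finset.sum_le_sum fun x _ => mc_norm_le_one χ _
        _ = Fintype.card E := by simp
    have h2 : (Fintype.card E : ℝ) ≤ d := by exact_mod_cast hqd
    have h3 : (0 : ℝ) ≤ t ^ 2 * K0 + t * d := by positivity
    have h4 : (0 : ℝ) ≤ d := Nat.cast_nonneg d
    nlinarith
  · -- translation
    obtain ⟨c, hc⟩ : ∃ c : E, f.eval c ≠ 0 := by
      by_contra hcon
      push Not at hcon
      have h1 : (Finset.univ : Finset E).card ≤ f.natDegree := by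
        refine (Finset.card_le_card (t := f.roots.toFinset) ?_).trans
          ((Multiset.toFinset_card_le _).trans (card_roots' f))
        intro x _
        rw [Multiset.mem_toFinset, mem_roots hf]
        exact hcon x
      rw [Finset.card_univ] at h1
      omega
    set g := f.comp (X + C c) with hg
    have hge : ∀ x, g.eval x = f.eval (x + c) := by
      intro x
      rw [hg, eval_comp]
      simp
    have hgf : g.comp (X - C c) = f := by
      rw [hg, comp_assoc]
      simp
    have hgd : g.natDegree = f.natDegree := by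
      rw [hg, natDegree_comp, natDegree_X_add_C, mul_one]
    have hg0 : g ≠ 0 := by
      intro h0
      rw [h0, zero_comp] at hgf
      exact hf hgf.symm
    have hsum : ∑ x : E, χ (f.eval x) = ∑ x : E, χ (g.eval x) := by
      simp only [hge]
      exact (Equiv.sum_comp (Equiv.addRight c) (fun x => χ (f.eval x))).symm
    have hgt : CopG t g := by
      intro k hk
      refine hft k fun v => ?_
      have h1 := hk (v - c)
      rwa [hg, rm_comp] at h1
    have hN : ∀ a : E, ((univ.filter fun x : E => g.eval x ≠ 0 ∧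
        g.eval x ^ Q = a).card : ℝ) ≤
          Fintype.card E / t + K0 * Real.sqrt (Fintype.card E) := by
      intro a
      have h1 := hcrd E g (by rw [hgd]; exact hdeg) (by rw [hgd]; exact hfd)
        (by rw [hge, zero_add]; exact hc) hgt a Q hQ'
      refine le_trans (Nat.cast_le.2 (Finset.card_le_card ?_)) h1
      intro x hx
      have hx' := (Finset.mem_filter.1 hx).2
      simp only [Finset.mem_filter, Finset.mem_univ, true_and]
      exact Or.inr hx'.2
    rw [hsum]
    refine (main (d := d) hK0 ht hQ' hQ0 χ hχ hχ1 g hg0 (by rw [hgd]; exact hfd) hN).trans ?_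
    have h4 : (0 : ℝ) ≤ d := Nat.cast_nonneg d
    nlinarith


section

variable {F : Type} [Field F] [Fintype F] [DecidableEq F]

/-- an extension of every degree with the bound of Stepanov's method -/
theorem T_bound (t : ℕ) (ht : 2 ≤ t) (htF : t ∣ Fintype.card F - 1) (χ : MulChar F ℂ)
    (hχ1 : χ ≠ 1) (hχ : χ ^ t = 1) (P R : F[X]) (hP : P.Monic) (hR : R.Monic)
    (hcop : CopG t (P * R ^ (t - 1))) :
    ∃ K : ℝ, 0 ≤ K ∧ ∀ m : ℕ, 1 ≤ m →
      ‖TL (lamPR χ P R) m‖ ≤ K * (Real.sqrt (Fintype.card F)) ^ m ∧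
      ∃ (E : Type) (_ : Field E) (_ : Fintype E) (_ : DecidableEq E) (_ : Algebra F E),
        Module.finrank F E = m ∧ Fintype.card E = Fintype.card F ^ m ∧
        ‖∑ x : E, χ (Algebra.norm F (aeval x P)) *
          (starRingEnd ℂ) (χ (Algebra.norm F (aeval x R)))‖ ≤
          K * (Real.sqrt (Fintype.card F)) ^ m := by
  classical
  set f : F[X] := P * R ^ (t - 1) with hf
  have hfm : f.Monic := hP.mul (hR.pow _)
  obtain ⟨K, hK, hw⟩ := wele t f.natDegree ht
  refine ⟨K, hK, fun m hm => ?_⟩
  obtain ⟨p, hp⟩ := CharP.exists F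
  have : Fact (Nat.Prime p) := ⟨CharP.char_is_prime F p⟩
  have : NeZero m := ⟨by omega⟩
  let E := FiniteField.Extension F p m
  let _ : Fintype E := Fintype.ofFinite E
  have hfr : Module.finrank F E = m := FiniteField.finrank_extension F p m
  have hcard : Fintype.card E = Fintype.card F ^ m := by
    rw [Module.card_eq_pow_finrank (K := F) (V := E), hfr]
  have htE : t ∣ Fintype.card E - 1 := by
    refine htF.trans ?_
    rw [hcard]
    simpa using Nat.sub_dvd_pow_sub_pow (Fintype.card F) 1 m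
  have hcopE : CopG t (f.map (algebraMap F E)) := by
    intro k hk
    refine hcop k fun v => ?_
    have h1 := hk (algebraMap F E v)
    rwa [← eq_rootMultiplicity_map (algebraMap F E).injective] at h1
  have h1 := hw E htE (normChar F E χ) (normChar_ne_one F E χ hχ1)
    (normChar_pow F E χ t (by omega) hχ) (f.map (algebraMap F E)) natDegree_map_le
    ((hfm.map _).ne_zero) hcopE
  have h2 : Real.sqrt (Fintype.card E) = (Real.sqrt (Fintype.card F)) ^ m := by
    rw [hcard]
    push_cast
    rw [Real.sqrt_eq_iff_mul_self_eq (by positivity) (by positivity), ← mul_pow,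
      Real.mul_self_sqrt (by positivity)]
  rw [h2] at h1
  have h3 : ∀ x : E, normChar F E χ ((f.map (algebraMap F E)).eval x) =
      χ (Algebra.norm F (aeval x P)) * (starRingEnd ℂ) (χ (Algebra.norm F (aeval x R))) := by
    intro x
    rw [eval_map_algebraMap, hf, map_mul, map_pow, normChar_apply, map_mul, map_pow, map_mul,
      map_pow, conj_eq ht χ hχ]
  simp_rw [h3] at h1
  refine ⟨?_, E, inferInstance, inferInstance, inferInstance, inferInstance, hfr, hcard, h1⟩
  have h4 := TL_char (E := E) χ P R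
  rw [hfr] at h4
  rw [h4]
  exact h1

theorem exists_r (t : ℕ) (ht : 2 ≤ t) (htF : t ∣ Fintype.card F - 1) (χ : MulChar F ℂ)
    (hχ1 : χ ≠ 1) (hχ : χ ^ t = 1) (P R : F[X]) (hP : P.Monic) (hR : R.Monic)
    (hcop : CopG t (P * R ^ (t - 1))) :
    ∃ r : F[X], r.Monic ∧ Even r.natDegree ∧ lamPR χ P R r ≠ 0 ∧ lamPR χ P R r ≠ 1 := by
  obtain ⟨K, hK, hb⟩ := T_bound t ht htF χ hχ1 hχ P R hP hR hcop
  set q := Fintype.card F with hq
  have hq2 : 2 ≤ q := Fintype.one_lt_card
  set d := P.natDegree + R.natDegree with hd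
  -- the degree of the extension
  obtain ⟨k, hk⟩ : ∃ k : ℕ, K + d + 1 < k := exists_nat_gt _
  have hk1 : 1 ≤ k := by
    have : (0 : ℝ) < k := by have : (0 : ℝ) ≤ d := Nat.cast_nonneg d; linarith
    exact_mod_cast this
  obtain ⟨-, E, i1, i2, i3, i4, hfr, hcard, hbE⟩ := hb (2 * k) (by omega)
  have hsq : (Real.sqrt q) ^ (2 * k) = (q : ℝ) ^ k := by
    rw [pow_mul, Real.sq_sqrt (by positivity)]
  rw [hsq] at hbE
  have hlt : k < q ^ k := Nat.lt_pow_self (by omega)
  have hfd : FiniteDimensional F E := Module.finite_of_finrank_pos (by rw [hfr]; omega)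
  have hex : ∃ x : E, χ (Algebra.norm F (aeval x P)) *
      (starRingEnd ℂ) (χ (Algebra.norm F (aeval x R))) ≠ 0 ∧ χ (Algebra.norm F (aeval x P)) *
      (starRingEnd ℂ) (χ (Algebra.norm F (aeval x R))) ≠ 1 := by
    by_contra hno
    push Not at hno
    have h1 : ∀ x : E, (1 : ℝ) - (if aeval x (P * R) = 0 then 1 else 0) ≤
        (χ (Algebra.norm F (aeval x P)) *
          (starRingEnd ℂ) (χ (Algebra.norm F (aeval x R)))).re := by
      intro x
      by_cases h0 : aeval x (P * R) = 0
      · rw [if_pos h0]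
        by_cases h2 : χ (Algebra.norm F (aeval x P)) *
          (starRingEnd ℂ) (χ (Algebra.norm F (aeval x R))) = 0
        · rw [h2]; simp
        · rw [hno x h2]; simp
      · rw [if_neg h0]
        rw [map_mul, mul_eq_zero, not_or] at h0
        have h2 : ∀ z : E, z ≠ 0 → χ (Algebra.norm F z) ≠ 0 := by
          intro z hz
          have hu : IsUnit (Algebra.norm F z) :=
            isUnit_iff_ne_zero.2 ((Algebra.norm_ne_zero_iff).2 hz)
          exact (hu.map χ).ne_zero
        have h3 : χ (Algebra.norm F (aeval x P)) *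
          (starRingEnd ℂ) (χ (Algebra.norm F (aeval x R))) ≠ 0 :=
          mul_ne_zero (h2 _ h0.1) ((_root_.map_ne_zero _).2 (h2 _ h0.2))
        rw [hno x h3]
        simp
    have h2 := Finset.sum_le_sum (s := univ) (fun x _ => h1 x)
    rw [sum_sub_distrib] at h2
    have hPR : (P * R).Monic := hP.mul hR
    have h3 : ∑ x : E, (if aeval x (P * R) = 0 then (1 : ℝ) else 0) ≤ d := by
      rw [sum_boole]
      have h4 : (univ.filter fun x : E => aeval x (P * R) = 0) ⊆ ((P * R).aroots E).toFinset := by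
        intro x hx
        rw [mem_filter] at hx
        rw [Multiset.mem_toFinset, mem_aroots]
        exact ⟨hPR.ne_zero, hx.2⟩
      have h5 := card_le_card h4
      have h6 := (Multiset.toFinset_card_le ((P * R).aroots E)).trans
        ((card_roots' _).trans (natDegree_map_le (p := P * R) (f := algebraMap F E)))
      rw [hP.natDegree_mul hR] at h6
      exact_mod_cast h5.trans h6
    have h4 : ∑ x : E, (1 : ℝ) = (q : ℝ) ^ k * (q : ℝ) ^ k := by
      rw [sum_const, card_univ, hcard, nsmul_eq_mul, mul_one]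
      push_cast
      rw [← pow_add, two_mul]
    have h5 : ∑ x : E, (χ (Algebra.norm F (aeval x P)) *
          (starRingEnd ℂ) (χ (Algebra.norm F (aeval x R)))).re ≤ K * (q : ℝ) ^ k := by
      rw [← Complex.re_sum]
      exact (Complex.re_le_norm _).trans hbE
    rw [h4] at h2
    have h6 : (k : ℝ) < (q : ℝ) ^ k := by exact_mod_cast hlt
    have h7 : (0 : ℝ) ≤ d := Nat.cast_nonneg d
    have h8 : (q : ℝ) ^ k * (q : ℝ) ^ k - d ≤ K * (q : ℝ) ^ k := by linarith
    have h9 : (1 : ℝ) ≤ (q : ℝ) ^ k := one_le_pow₀ (by exact_mod_cast (by omega : 1 ≤ q))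
    nlinarith
  obtain ⟨x, hx0, hx1⟩ := hex
  have hxi : IsIntegral F x := Algebra.IsIntegral.isIntegral x
  set Q := minpoly F x with hQ
  have hQm : Q.Monic := minpoly.monic hxi
  have hdvd : Q.natDegree ∣ Module.finrank F E := (finrank_div x).2
  have hval : lamPR χ P R (Q ^ (Module.finrank F E / Q.natDegree)) =
      χ (Algebra.norm F (aeval x P)) *
        (starRingEnd ℂ) (χ (Algebra.norm F (aeval x R))) := by
    rw [l_pow _ (lamPR_one χ P R) (fun g h hg hh => lamPR_mul χ P R g h hg hh) Q hQm,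
      norm_aeval, norm_aeval, map_pow, map_pow, map_pow, ← mul_pow]
    rfl
  refine ⟨Q ^ (Module.finrank F E / Q.natDegree), hQm.pow _, ?_, ?_, ?_⟩
  · rw [hQm.natDegree_pow, Nat.div_mul_cancel hdvd, hfr]
    exact even_two_mul k
  · rw [hval]; exact hx0
  · rw [hval]; exact hx1

/-- Weil's bound -/
theorem weilG (t : ℕ) (ht : 2 ≤ t) (htF : t ∣ Fintype.card F - 1) (χ : MulChar F ℂ)
    (hχ1 : χ ≠ 1) (hχ : χ ^ t = 1) (P R : F[X]) (hP : P.Monic) (hR : R.Monic)
    (hcop : CopG t (P * R ^ (t - 1))) :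
    ‖∑ x : F, χ (P.eval x) * (starRingEnd ℂ) (χ (R.eval x))‖ ≤
      (P.natDegree + R.natDegree : ℕ) * Real.sqrt (Fintype.card F) := by
  classical
  obtain ⟨K, hK, hb⟩ := T_bound t ht htF χ hχ1 hχ P R hP hR hcop
  obtain ⟨r, hr, hev, hr0, hr1⟩ := exists_r t ht htF χ hχ1 hχ P R hP hR hcop
  set d := P.natDegree + R.natDegree with hd
  set l := lamPR χ P R with hl
  have hl1 : l 1 = 1 := lamPR_one χ P R
  have hlm : ∀ g h : F[X], g.Monic → h.Monic → l (g * h) = l g * l h :=
    fun g h hg hh => lamPR_mul χ P R g h hg hh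
  have hA : ∀ n, d ≤ n → AL l n = 0 := fun n hn =>
    AL_eq_zero χ P R r hP hR hr hev hr0 hr1 n hn
  set a : ℂ[X] := ∑ n ∈ range d, C (AL l n) * X ^ n with ha
  have hd0 : 0 < d := by
    by_contra h0
    have h1 := hA 0 (by omega)
    rw [AL_zero l hl1] at h1
    exact one_ne_zero h1
  have hcoeff : ∀ n, a.coeff n = AL l n := by
    intro n
    rw [ha, finsetSum_coeff]
    simp_rw [coeff_C_mul_X_pow]
    by_cases hn : n < d
    · rw [sum_eq_single n]
      · simp
      · intro m _ hm
        rw [if_neg (Ne.symm hm)]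
      · intro h
        exact absurd (mem_range.2 hn) h
    · rw [hA n (by omega)]
      rw [sum_eq_zero]
      intro m hm
      rw [mem_range] at hm
      rw [if_neg (by omega)]
  have hdeg : a.natDegree ≤ d := by
    rw [natDegree_le_iff_coeff_eq_zero]
    intro n hn
    rw [hcoeff, hA n (by omega)]
  have hq0 : 0 < Real.sqrt (Fintype.card F) := Real.sqrt_pos.2 (by exact_mod_cast Fintype.card_pos)
  have hmain := coeff_one_bound a (by rw [hcoeff, AL_zero l hl1]) (fun m => TL l m)
    (Real.sqrt (Fintype.card F)) K hq0 hK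
    (fun m hm => (hb m hm).1)
    (by
      intro n
      rw [hcoeff]
      have := n_mul_AL l hl1 hlm n
      simp_rw [hcoeff]
      exact this)
    d hdeg
  rw [hcoeff] at hmain
  have h1 := n_mul_AL l hl1 hlm 1
  rw [Icc_self, sum_singleton, Nat.sub_self, AL_zero l hl1] at h1
  have h2 := TL_char (F := F) (E := F) χ P R
  rw [Module.finrank_self] at h2
  have h3 : AL l 1 = ∑ x : F, χ (P.eval x) * (starRingEnd ℂ) (χ (R.eval x)) := by
    have : AL l 1 = TL l 1 := by simpa using h1
    rw [this, hl, h2]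
    simp
  rw [h3] at hmain
  exact hmain

end


end Pool.Agent.J4H30.LV.Weil
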