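import Pool.Agent.J4H20.LV.Stm
import Pool.Agent.W349.CG.Weil
import Pool.Agent.J4H30.LV.Wl3

/-!
# Project LV, piece (T1): prescribed classes modulo `m`-th powers of shifts, `m` composite (from J4H74/TP/T1P.lean)
-/

set_option autoImplicit false

namespace Pool.Agent.J4H30.LV

open Polynomial Finset Pool.Agent.W349.CG.WeilT Pool.Agent.J4H20.LV
open Pool.Agent.J4H30.LV.Weil (CopG weilG)

section Gen

variable {F : Type} [Field F] [Fintype F] [DecidableEq F]

theorem char_sum {k : ℕ} (m : ℕ) (hm2 : 2 ≤ m) (χ : MulChar F ℂ) (hord : orderOf χ = m)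
    (hmF : m ∣ Fintype.card F - 1) (a : Fin k → F) (ha : Function.Injective a) (h : Fin k → ℕ)
    (hh : ∀ j, h j < m) (h0 : ∃ j, h j ≠ 0) :
    ‖∑ x : F, ∏ j, χ (x - a j) ^ h j‖ ≤ ((k * m : ℕ) : ℝ) * Real.sqrt (Fintype.card F) := by
  obtain ⟨j0, hj0⟩ := h0
  obtain ⟨g, hg⟩ : ∃ g, g = Nat.gcd m (univ.gcd h) := ⟨_, rfl⟩
  have hgm : g ∣ m := hg ▸ Nat.gcd_dvd_left _ _
  have hgh : ∀ j, g ∣ h j := fun j => (hg ▸ Nat.gcd_dvd_right _ _ : g ∣ univ.gcd h).trans (Finset.gcd_dvd (mem_univ j))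
  obtain ⟨t, ht⟩ := hgm
  choose h' hh' using hgh
  have hg0 : 0 < g := Nat.pos_of_ne_zero (by rintro rfl; omega)
  have ht2 : 2 ≤ t := by
    by_contra hlt
    have h1 : m ≤ g := by
      rw [ht]
      calc g * t ≤ g * 1 := Nat.mul_le_mul_left _ (by omega)
        _ = g := mul_one _
    have h2 : g ≤ h j0 := Nat.le_of_dvd (Nat.pos_of_ne_zero hj0) ⟨_, hh' j0⟩
    have := hh j0
    omega
  have hmon : (∏ j, (X - C (a j)) ^ h' j : F[X]).Monic :=
    monic_prod_of_monic _ _ fun j _ => (monic_X_sub_C _).pow _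
  have hrm : ∀ j0, rootMultiplicity (a j0) (∏ j, (X - C (a j)) ^ h' j : F[X]) = h' j0 := by
    intro j0
    have h1 := rm_formula (1 : F[X]) 1 one_ne_zero one_ne_zero a h' 0 0 (a j0)
    simp only [pow_zero, one_mul, zero_mul, zero_add] at h1
    rw [h1, sum_eq_single j0]
    · rw [if_pos rfl, mul_one]
    · intro i _ hij
      rw [if_neg, mul_zero]
      exact fun h => hij (ha h)
    · simp
  have hcop : CopG t (∏ j, (X - C (a j)) ^ h' j : F[X]) := by
    intro k' hk'
    have h1 : ∀ j, m ∣ k' * h j := by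
      intro j
      have h2 := hk' (a j)
      rw [hrm] at h2
      rw [ht, hh' j, show k' * (g * h' j) = g * (k' * h' j) by ring]
      exact Nat.mul_dvd_mul_left g h2
    have h3 : m ∣ k' * univ.gcd h := by
      have h4 : m ∣ univ.gcd (fun j => k' * h j) := Finset.dvd_gcd fun j _ => h1 j
      rw [Finset.gcd_mul_left] at h4
      simpa using h4
    have h5 : m ∣ k' * g := by
      rw [hg, ← Nat.gcd_mul_left]
      exact Nat.dvd_gcd (dvd_mul_left _ _) h3
    rw [ht, mul_comm k' g] at h5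
    exact Nat.dvd_of_mul_dvd_mul_left hg0 h5
  have e1 : (χ ^ g) ^ t = 1 := by
    rw [← pow_mul, ← ht, ← hord, pow_orderOf_eq_one]
  have e2 : χ ^ g ≠ 1 := by
    intro h1
    have h2 : m ∣ g := by
      rw [← hord]
      exact orderOf_dvd_of_pow_eq_one h1
    have h3 := Nat.le_of_dvd hg0 h2
    rw [ht] at h3
    nlinarith
  have h1 := weilG t ht2 ((Dvd.intro_left g ht.symm).trans hmF) (χ ^ g) e2 e1 _ 1 hmon monic_one
    (by rw [one_pow, mul_one]; exact hcop)
  have h2 : (∏ j, (X - C (a j)) ^ h' j : F[X]).natDegree ≤ k * m := by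
    rw [natDegree_prod_of_monic _ _ fun j _ => (monic_X_sub_C _).pow _]
    have h3 : ∀ j ∈ (univ : Finset (Fin k)), ((X - C (a j)) ^ h' j : F[X]).natDegree ≤ m := by
      intro j _
      rw [(monic_X_sub_C (a j)).natDegree_pow, natDegree_X_sub_C, mul_one]
      have h4 := hh j
      rw [hh' j] at h4
      have h5 : h' j ≤ g * h' j := Nat.le_mul_of_pos_left _ hg0
      omega
    refine (sum_le_card_nsmul _ _ _ h3).trans ?_
    rw [card_univ, Fintype.card_fin, smul_eq_mul]
  have h3 : ∀ x : F, ∏ j, χ (x - a j) ^ h j =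
      (χ ^ g) ((∏ j, (X - C (a j)) ^ h' j : F[X]).eval x) * (starRingEnd ℂ) ((χ ^ g) ((1 : F[X]).eval x)) := by
    intro x
    rw [eval_one, MulChar.map_one, map_one, mul_one, eval_prod, map_prod]
    apply prod_congr rfl
    intro j _
    rw [eval_pow, eval_sub, eval_X, eval_C, map_pow, MulChar.pow_apply' _ (by omega), ← pow_mul, hh' j]
  simp_rw [h3]
  refine h1.trans ?_
  apply mul_le_mul_of_nonneg_right _ (Real.sqrt_nonneg _)
  rw [natDegree_one, add_zero]
  exact_mod_cast h2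

theorem char_pow (χ : MulChar F ℂ) (p : ℕ) (hp : 0 < p) (hord : orderOf χ = p) (x : F)
    (hx : x ≠ 0) : χ x ^ p = 1 := by
  rw [← MulChar.pow_apply' _ (by omega), ← hord, pow_orderOf_eq_one,
    MulChar.one_apply (isUnit_iff_ne_zero.2 hx)]

/-- the count -/
theorem count {k : ℕ} (p : ℕ) (hp : 2 ≤ p) (χ : MulChar F ℂ) (hord : orderOf χ = p)
    (hpF : p ∣ Fintype.card F - 1) (a : Fin k → F) (ha : Function.Injective a) (c : Fin k → ℂ)
    (hc : ∀ j, c j ^ p = 1) :
    (Fintype.card F : ℝ) ≤ (p : ℝ) ^ k * ((univ.filter fun x : F =>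
      ∀ j, x ≠ a j ∧ c j * χ (x - a j) = 1).card + k) +
      (p : ℝ) ^ k * (((k * p : ℕ) : ℝ) * Real.sqrt (Fintype.card F)) := by
  classical
  set N : F → ℂ := fun x => ∏ j, ∑ i ∈ range p, (c j * χ (x - a j)) ^ i with hN
  set S : Finset F := univ.filter fun x : F => ∀ j, x ≠ a j ∧ c j * χ (x - a j) = 1 with hS
  set W : Finset (Fin k → ℕ) := Fintype.piFinset (fun _ : Fin k => range p) with hW
  have hc1 : ∀ j, ‖c j‖ = 1 := by
    intro j
    have h2 : ‖c j‖ ^ p = 1 := by rw [← norm_pow, hc, norm_one]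
    exact (pow_eq_one_iff_of_nonneg (norm_nonneg _) (by omega)).1 h2
  -- expansion
  have hexp : ∑ x, N x = ∑ h ∈ W, (∏ j, c j ^ h j) * ∑ x : F, ∏ j, χ (x - a j) ^ h j := by
    have h1 : ∀ x, N x = ∑ h ∈ W, (∏ j, c j ^ h j) * ∏ j, χ (x - a j) ^ h j := by
      intro x
      simp only [hN]
      rw [prod_univ_sum]
      apply sum_congr rfl
      intro h _
      rw [← prod_mul_distrib]
      apply prod_congr rfl
      intro j _
      rw [mul_pow]
    simp_rw [h1]
    rw [sum_comm]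
    apply sum_congr rfl
    intro h _
    rw [mul_sum]
  have h0W : (0 : Fin k → ℕ) ∈ W := by
    rw [hW, Fintype.mem_piFinset]
    intro j
    exact mem_range.2 (show 0 < p by omega)
  have hWc : W.card = p ^ k := by
    rw [hW, Fintype.card_piFinset]
    simp
  rw [← add_sum_erase _ _ h0W] at hexp
  have hz : (∏ j, c j ^ (0 : Fin k → ℕ) j) * ∑ x : F, ∏ j, χ (x - a j) ^ (0 : Fin k → ℕ) j =
      (Fintype.card F : ℂ) := by
    simp
  rw [hz] at hexp
  -- the remainder
  have hrem : ‖∑ h ∈ W.erase 0, (∏ j, c j ^ h j) * ∑ x : F, ∏ j, χ (x - a j) ^ h j‖ ≤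
      (p : ℝ) ^ k * (((k * p : ℕ) : ℝ) * Real.sqrt (Fintype.card F)) := by
    refine (norm_sum_le_of_le _ (n := fun _ => ((k * p : ℕ) : ℝ) * Real.sqrt (Fintype.card F))
      ?_).trans ?_
    · intro h hh
      rw [mem_erase, hW, Fintype.mem_piFinset] at hh
      rw [norm_mul, norm_prod]
      have h1 : ∏ j, ‖c j ^ h j‖ = 1 := by
        apply prod_eq_one
        intro j _
        rw [norm_pow, hc1, one_pow]
      rw [h1, one_mul]
      refine char_sum p hp χ hord hpF a ha h (fun j => mem_range.1 (hh.2 j)) ?_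
      by_contra hne
      push Not at hne
      exact hh.1 (funext hne)
    · rw [sum_const, nsmul_eq_mul]
      apply mul_le_mul_of_nonneg_right _ (by positivity)
      have := card_le_card (erase_subset 0 W)
      rw [hWc] at this
      exact_mod_cast this
  -- the values
  have hle : ∀ x, ‖N x‖ ≤ (p : ℝ) ^ k := by
    intro x
    simp only [hN]
    rw [norm_prod]
    have h1 : ∀ j ∈ (univ : Finset (Fin k)), ‖∑ i ∈ range p, (c j * χ (x - a j)) ^ i‖ ≤ (p : ℝ) := by
      intro j _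
      refine (norm_sum_le_of_le _ (n := fun _ => (1 : ℝ)) ?_).trans ?_
      · intro i _
        rw [norm_pow, norm_mul, hc1, one_mul]
        exact pow_le_one₀ (norm_nonneg _) (norm_char_le χ _)
      · simp
    refine (prod_le_prod (fun j _ => norm_nonneg _) h1).trans ?_
    simp
  have hzero : ∀ x, x ∉ S → (∀ j, x ≠ a j) → N x = 0 := by
    intro x hx hxa
    rw [hS, mem_filter] at hx
    simp only [mem_univ, true_and] at hx
    push Not at hx
    obtain ⟨j, hj⟩ := hx
    have hj' := hj (hxa j)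
    simp only [hN]
    apply prod_eq_zero (mem_univ j)
    rw [geom_sum_eq hj', mul_pow, hc, one_mul, char_pow χ p (by omega) hord _ (sub_ne_zero.2 (hxa j)),
      sub_self, zero_div]
  have hsum : ‖∑ x, N x‖ ≤ (p : ℝ) ^ k * (S.card + k) := by
    have h1 : ∑ x, N x = ∑ x ∈ S ∪ univ.image a, N x := by
      symm
      apply sum_subset (subset_univ _)
      intro x _ hx
      rw [mem_union, not_or, mem_image] at hx
      apply hzero x hx.1
      intro j hj
      exact hx.2 ⟨j, mem_univ _, hj.symm⟩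
    rw [h1]
    refine (norm_sum_le_of_le _ (n := fun _ => (p : ℝ) ^ k) fun x _ => hle x).trans ?_
    rw [sum_const, nsmul_eq_mul, mul_comm]
    apply mul_le_mul_of_nonneg_left _ (by positivity)
    have h2 : (S ∪ univ.image a).card ≤ S.card + k := by
      refine (card_union_le _ _).trans ?_
      have := card_image_le (s := (univ : Finset (Fin k))) (f := a)
      rw [card_univ, Fintype.card_fin] at this
      omega
    exact_mod_cast h2
  have e1 : (Fintype.card F : ℂ) = ∑ x, N x -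
      ∑ h ∈ W.erase 0, (∏ j, c j ^ h j) * ∑ x : F, ∏ j, χ (x - a j) ^ h j := by
    rw [hexp]
    ring
  have e2 : ‖(Fintype.card F : ℂ)‖ = Fintype.card F := by simp
  rw [← e2, e1]
  refine (norm_sub_le _ _).trans ?_
  rw [← e1, e2]
  exact add_le_add hsum hrem

theorem main {k : ℕ} (p : ℕ) (hp : 2 ≤ p) (hpF : p ∣ Fintype.card F - 1) (a : Fin k → F)
    (ha : Function.Injective a) (u v : Fin k) (huv : u ≠ v) (d : ℕ)
    (hF : (p ^ k * (d + k + 1 + k * p)) ^ 2 ≤ Fintype.card F) :
    ∃ S : Finset F, d < S.card ∧ ∀ x ∈ S,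
      (∀ j, x ≠ a j) ∧ (∀ j, j ≠ u → j ≠ v → ∃ y : F, x - a j = y ^ p) ∧
      (∃ y : F, (x - a u) * (x - a v) = y ^ p) ∧ ∀ ℓ : ℕ, ℓ.Prime → ℓ ∣ p → ¬ ∃ y : F, x - a u = y ^ ℓ := by
  classical
  have hpr := Complex.isPrimitiveRoot_exp p (by omega)
  obtain ⟨χ, hord⟩ := MulChar.exists_mulChar_orderOf F hpF hpr
  set w : ℂ := Complex.exp (2 * Real.pi * Complex.I / p) with hw
  have hw1 : w ^ p = 1 := hpr.pow_eq_one
  have hw0 : w ≠ 0 := Complex.exp_ne_zero _
  have hwne : w ≠ 1 := by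
    intro h
    exact hpr.ne_one (by omega) h
  set c : Fin k → ℂ := fun j => if j = u then w else if j = v then w⁻¹ else 1 with hc
  have hcp : ∀ j, c j ^ p = 1 := by
    intro j
    simp only [hc]
    split_ifs
    · exact hw1
    · rw [inv_pow, hw1, inv_one]
    · exact one_pow _
  have hcnt := count p hp χ hord hpF a ha c hcp
  refine ⟨univ.filter fun x : F => ∀ j, x ≠ a j ∧ c j * χ (x - a j) = 1, ?_, ?_⟩
  · by_contra hle
    push Not at hle
    set s : ℝ := Real.sqrt (Fintype.card F) with hs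
    have hs2 : s ^ 2 = Fintype.card F := Real.sq_sqrt (Nat.cast_nonneg _)
    have hsge : ((p : ℝ) ^ k * (d + k + 1 + k * p)) ≤ s := by
      rw [hs]
      apply Real.le_sqrt_of_sq_le
      exact_mod_cast hF
    have hpk : (1 : ℝ) ≤ (p : ℝ) ^ k := one_le_pow₀ (by exact_mod_cast (by omega : 1 ≤ p))
    have hle' : ((univ.filter fun x : F => ∀ j, x ≠ a j ∧ c j * χ (x - a j) = 1).card : ℝ) ≤ d := by
      exact_mod_cast hle
    have hk0 : (0 : ℝ) ≤ k := Nat.cast_nonneg _
    have hd0 : (0 : ℝ) ≤ d := Nat.cast_nonneg _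
    have hp0 : (0 : ℝ) ≤ p := Nat.cast_nonneg _
    have hs1 : 1 ≤ s := by nlinarith [mul_nonneg hk0 hp0]
    rw [← hs2] at hcnt
    push_cast at hcnt
    have h1 : (p : ℝ) ^ k * ((univ.filter fun x : F =>
        ∀ j, x ≠ a j ∧ c j * χ (x - a j) = 1).card + k) ≤ (p : ℝ) ^ k * (d + k) * s := by
      have h2 : (p : ℝ) ^ k * ((univ.filter fun x : F =>
          ∀ j, x ≠ a j ∧ c j * χ (x - a j) = 1).card + k) ≤ (p : ℝ) ^ k * (d + k) := by
        apply mul_le_mul_of_nonneg_left _ (by positivity)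
        linarith
      exact h2.trans (le_mul_of_one_le_right (by positivity) hs1)
    have h3 : s ^ 2 ≤ (p : ℝ) ^ k * (d + k + k * p) * s := by
      calc s ^ 2 ≤ _ := hcnt
        _ ≤ (p : ℝ) ^ k * (d + k) * s + (p : ℝ) ^ k * ((k : ℝ) * p * s) := by linarith
        _ = _ := by ring
    have h4 : s ≤ (p : ℝ) ^ k * (d + k + k * p) := by
      have h5 : s * s ≤ (p : ℝ) ^ k * (d + k + k * p) * s := by rw [← sq]; exact h3
      exact le_of_mul_le_mul_right h5 (by linarith)
    nlinarith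
  · intro x hx
    rw [mem_filter] at hx
    have hx := hx.2
    have hxu : w * χ (x - a u) = 1 := by
      have := (hx u).2
      simpa [hc] using this
    have hxv : w⁻¹ * χ (x - a v) = 1 := by
      have := (hx v).2
      simpa [hc, huv.symm] using this
    refine ⟨fun j => (hx j).1, ?_, ?_, ?_⟩
    · intro j hju hjv
      have h1 : χ (x - a j) = 1 := by
        have := (hx j).2
        simpa [hc, hju, hjv] using this
      have h0 : x - a j ≠ 0 := sub_ne_zero.2 (hx j).1
      obtain ⟨y, hy⟩ := pow_of_char χ p hord (Units.mk0 _ h0) (by simpa using h1)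
      refine ⟨y, ?_⟩
      have := congrArg Units.val hy
      simpa using this
    · have h0 : (x - a u) * (x - a v) ≠ 0 :=
        mul_ne_zero (sub_ne_zero.2 (hx u).1) (sub_ne_zero.2 (hx v).1)
      have h1 : χ ((x - a u) * (x - a v)) = 1 := by
        rw [map_mul]
        calc χ (x - a u) * χ (x - a v) = (w * χ (x - a u)) * (w⁻¹ * χ (x - a v)) := by
              field_simp
          _ = 1 := by rw [hxu, hxv, one_mul]
      obtain ⟨y, hy⟩ := pow_of_char χ p hord (Units.mk0 _ h0) (by simpa using h1)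
      refine ⟨y, ?_⟩
      have := congrArg Units.val hy
      simpa using this
    · rintro ℓ hℓ ⟨e, he⟩ ⟨y, hy⟩
      have hy0 : y ≠ 0 := by
        rintro rfl
        rw [zero_pow hℓ.ne_zero] at hy
        exact (sub_ne_zero.2 (hx u).1) hy
      have he0 : 0 < e := Nat.pos_of_ne_zero (by rintro rfl; omega)
      have h1 : (w * χ (x - a u)) ^ e = 1 := by rw [hxu, one_pow]
      rw [hy, map_pow, mul_pow, ← pow_mul, ← he, char_pow χ p (by omega) hord y hy0, mul_one] at h1
      have h2 := hpr.dvd_of_pow_eq_one e h1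
      have h3 := Nat.le_of_dvd he0 h2
      rw [he] at h3
      have h4 := hℓ.two_le
      nlinarith

end Gen

theorem t_T1 : S_T1 := by
  intro p k a u v d B hp ha huv
  haveI : NeZero (4 * p) := ⟨by omega⟩
  obtain ⟨q, hqB, hq, hq1⟩ := Nat.forall_exists_prime_gt_and_eq_mod (q := 4 * p) (a := 1) isUnit_one
    (B + (∑ i, ∑ j, (a i - a j).natAbs) + (p ^ k * (d + k + 1 + k * p)) ^ 2 + 1)
  haveI : Fact q.Prime := ⟨hq⟩
  have hpq : 4 * p ∣ q - 1 := by
    have h1 : 1 ≡ q [MOD 4 * p] := by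
      rw [← ZMod.natCast_eq_natCast_iff]
      simpa using hq1.symm
    exact (Nat.modEq_iff_dvd' hq.one_lt.le).1 h1
  refine ⟨q, hq, by omega, hpq, ?_⟩
  refine main (F := ZMod q) p hp (by rw [ZMod.card]; exact (dvd_mul_left p 4).trans hpq)
    (fun j => (a j : ZMod q)) ?_ u v huv d (by rw [ZMod.card]; omega)
  intro i j hij
  have h1 : ((a i - a j : ℤ) : ZMod q) = 0 := by
    push_cast
    exact sub_eq_zero.2 hij
  rw [ZMod.intCast_zmod_eq_zero_iff_dvd] at h1
  have h2 : (a i - a j).natAbs ≤ ∑ i, ∑ j, (a i - a j).natAbs := by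
    have h3 : (a i - a j).natAbs ≤ ∑ j, (a i - a j).natAbs :=
      Finset.single_le_sum (f := fun j => (a i - a j).natAbs) (fun _ _ => Nat.zero_le _)
        (Finset.mem_univ j)
    exact h3.trans (Finset.single_le_sum (f := fun i => ∑ j, (a i - a j).natAbs)
      (fun _ _ => Nat.zero_le _) (Finset.mem_univ i))
  have h3 : a i - a j = 0 := Int.eq_zero_of_abs_lt_dvd h1 (by
    rw [Int.abs_eq_natAbs]
    have : (a i - a j).natAbs < q := by omega
    exact_mod_cast this)
  exact ha (by omega)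

end Pool.Agent.J4H30.LV
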