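import Pool.Agent.H435R3.Weil.NV0

/-!
# Weil bound for characters of composite order: `Cop` replaced by `CopG` (copies of H435R3/Weil: Irr, NV0, NV1)
-/

set_option autoImplicit false

namespace Pool.Agent.J4H30.LV.Weil

open Polynomial Finset
open Pool.Agent.H435R3.Weil

/-- `t` has no common factor with all the multiplicities of the roots of `f` -/
def CopG {F : Type*} [Field F] (t : ℕ) (f : F[X]) : Prop :=
  ∀ k : ℕ, (∀ v : F, t ∣ k * rootMultiplicity v f) → t ∣ k

theorem irrG {F : Type*} [Field F] {t : ℕ} (ht : 2 ≤ t) (f : F[X]) (hf : f ≠ 0) (e : F)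
    (he : e ≠ 0) (hv : CopG t f) :
    Irreducible (X ^ t - C (algebraMap F[X] (RatFunc F) (C e) / algebraMap F[X] (RatFunc F) f) :
      (RatFunc F)[X]) := by
  set φ : F[X] →+* RatFunc F := algebraMap F[X] (RatFunc F) with hφ
  have hinj : Function.Injective φ := RatFunc.algebraMap_injective F
  set c : RatFunc F := φ (C e) / φ f with hc
  have hφf : φ f ≠ 0 := by rw [map_ne_zero_iff _ hinj]; exact hf
  have hmon : (X ^ t - C c : (RatFunc F)[X]).Monic := monic_X_pow_sub_C c (by omega)
  have hnd : (X ^ t - C c : (RatFunc F)[X]).natDegree = t := natDegree_X_pow_sub_C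
  have hne1 : (X ^ t - C c : (RatFunc F)[X]) ≠ 1 := by
    intro h
    have := congrArg natDegree h
    rw [hnd, natDegree_one] at this
    omega
  rw [hmon.irreducible_iff_lt_natDegree_lt hne1]
  intro g hg hgd hdvd
  rw [mem_Ioc, hnd] at hgd
  set k := g.natDegree with hk
  have h1 := coeff_zero_pow t (by omega) c g hg hdvd
  rw [← hk] at h1
  -- write the constant coefficient as a fraction
  obtain ⟨u, w, hw0, huw⟩ := IsFractionRing.div_surjective (A := F[X]) (g.coeff 0)
  have hw : w ≠ 0 := nonZeroDivisors.ne_zero hw0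
  have hφw : φ w ≠ 0 := by rw [map_ne_zero_iff _ hinj]; exact hw
  rw [← huw, hc, div_pow, div_pow] at h1
  have h2 : φ (u ^ t * f ^ k) = φ ((-1) ^ (k * t) * C e ^ k * w ^ t) := by
    rw [map_mul, map_mul, map_mul, map_pow, map_pow, map_pow, map_pow, map_pow]
    have h3 : φ u ^ t / φ w ^ t = (-1) ^ (k * t) * (φ (C e) ^ k / φ f ^ k) := h1
    rw [div_eq_iff (pow_ne_zero _ hφw)] at h3
    rw [h3, map_neg, map_one]
    field_simp
  have h3 : u ^ t * f ^ k = (-1) ^ (k * t) * C e ^ k * w ^ t := hinj h2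
  have hCe : (C e : F[X]) ≠ 0 := C_ne_zero.2 he
  have hrhs : (-1 : F[X]) ^ (k * t) * C e ^ k * w ^ t ≠ 0 :=
    mul_ne_zero (mul_ne_zero (pow_ne_zero _ (neg_ne_zero.2 one_ne_zero)) (pow_ne_zero _ hCe))
      (pow_ne_zero _ hw)
  have hu : u ≠ 0 := by
    rintro rfl
    rw [← h3, zero_pow (by omega), zero_mul] at hrhs
    exact hrhs rfl
  have h7 : t ∣ k := by
   refine hv k fun v => ?_
   have h4 := congrArg (rootMultiplicity v) h3
   rw [rootMultiplicity_mul (mul_ne_zero (pow_ne_zero _ hu) (pow_ne_zero _ hf)),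
     rootMultiplicity_mul hrhs, rm_pow u v hu, rm_pow f v hf, rm_pow w v hw] at h4
   have h5 : rootMultiplicity v ((-1 : F[X]) ^ (k * t) * C e ^ k) = 0 := by
     have : (-1 : F[X]) ^ (k * t) * C e ^ k = C ((-1) ^ (k * t) * e ^ k) := by
       rw [C_mul, C_pow, C_pow, C_neg, C_1]
     rw [this, rootMultiplicity_C]
   rw [h5, zero_add] at h4
   have h6 : t ∣ k * rootMultiplicity v f := by
     have : k * rootMultiplicity v f = t * rootMultiplicity v w - t * rootMultiplicity v u := by
       omega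
     rw [this, ← Nat.mul_sub]
     exact Dvd.intro _ rfl
   exact h6
  have h8 := Nat.le_of_dvd hgd.1 h7
  have h9 : t / 2 < t := Nat.div_lt_self (by omega) (by norm_num)
  omega


namespace NV0h

/-- degree of a determinant, column by column -/
theorem natDegree_det_le' {R : Type*} [CommRing R] {n : Type*} [Fintype n] [DecidableEq n]
    (M : Matrix n n R[X]) (c : n → ℕ) (h : ∀ i j, (M i j).natDegree ≤ c j) :
    M.det.natDegree ≤ ∑ j, c j := by
  rw [Matrix.det_apply]
  refine (natDegree_sum_le _ _).trans ?_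
  rw [Finset.fold_max_le]
  refine ⟨Nat.zero_le _, fun σ _ => ?_⟩
  simp only [Function.comp_apply]
  have h1 : (∏ i, M (σ i) i).natDegree ≤ ∑ j, c j :=
    (natDegree_prod_le _ _).trans (Finset.sum_le_sum fun i _ => h _ _)
  rcases Int.units_eq_one_or (Equiv.Perm.sign σ) with hs | hs
  · rw [hs, one_smul]; exact h1
  · rw [hs, Units.neg_smul, one_smul, natDegree_neg]; exact h1

theorem core {F : Type*} [Field F] [Fintype F] {t Q D q : ℕ} (ht : 2 ≤ t) (f : F[X])
    (hf0 : f.eval 0 ≠ 0) (hq : Fintype.card F = q) (hqt : q = t * Q + 1)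
    (hpow : CopG t f) (k : Fin t → F[X])
    (hk : ∀ i, (k i).natDegree ≤ D) (hdeg : t * D + (t - 1) * f.natDegree < q)
    (hdvd : X ^ q ∣ ∑ i : Fin t, k i * f ^ ((i : ℕ) * Q)) : ∀ i, k i = 0 := by
  classical
  have ht0 : 0 < t := by omega
  have hfne : f ≠ 0 := by rintro rfl; simp at hf0
  obtain ⟨A, hA⟩ : ∃ A : F[X][X], A = ∑ i : Fin t, C (k i) * X ^ (i : ℕ) := ⟨_, rfl⟩
  obtain ⟨B, hB⟩ : ∃ B : F[X][X], B = C f * X ^ t - C (C (f.eval 0)) := ⟨_, rfl⟩
  have hAcoeff : ∀ i : Fin t, A.coeff i = k i := by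
    intro i
    rw [hA, finsetSum_coeff, Finset.sum_eq_single i]
    · simp
    · intro j _ hj
      rw [coeff_C_mul, coeff_X_pow, if_neg (fun h => hj (Fin.ext h.symm)), mul_zero]
    · intro h; exact absurd (Finset.mem_univ _) h
  have hAdeg : A.natDegree ≤ t - 1 := by
    rw [hA]
    refine natDegree_sum_le_of_forall_le _ _ (fun i _ => ?_)
    refine (natDegree_C_mul_X_pow_le _ _).trans ?_
    have := i.2
    omega
  have hAcoeff' : ∀ n, (A.coeff n).natDegree ≤ D := by
    intro n
    by_cases hn : n < t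
    · have := hAcoeff ⟨n, hn⟩
      rw [show A.coeff n = k ⟨n, hn⟩ from this]
      exact hk _
    · rw [coeff_eq_zero_of_natDegree_lt (by omega)]
      simp
  have hBdeg : B.natDegree ≤ t := by
    rw [hB]
    refine (natDegree_sub_le _ _).trans ?_
    rw [natDegree_C]
    exact max_le (natDegree_C_mul_X_pow_le _ _) (Nat.zero_le _)
  have hBcoeff : ∀ n, (B.coeff n).natDegree ≤ f.natDegree := by
    intro n
    rw [hB, coeff_sub, coeff_C_mul, coeff_X_pow, coeff_C]
    split_ifs with h1 h2
    · omega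
    · simp
    · simp
    · simp
  by_contra hne
  push Not at hne
  obtain ⟨i0, hi0⟩ := hne
  have hAne : A ≠ 0 := by
    intro h
    apply hi0
    rw [← hAcoeff i0, h, coeff_zero]
  -- the resultant
  obtain ⟨R, hR⟩ : ∃ R : F[X], R = resultant A B A.natDegree t := ⟨_, rfl⟩
  obtain ⟨P, S, _, _, hPS⟩ := exists_mul_add_mul_eq_C_resultant A B (m := A.natDegree) (n := t) le_rfl
    hBdeg (Or.inr ht0.ne')
  rw [← hR] at hPS
  have hRdvd : X ^ q ∣ R := by
    have h1 := congrArg (eval (f ^ Q)) hPS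
    rw [eval_C, eval_add, eval_mul, eval_mul] at h1
    rw [← h1]
    refine dvd_add (Dvd.dvd.mul_right ?_ _) (Dvd.dvd.mul_right ?_ _)
    · have h2 : eval (f ^ Q) A = ∑ i : Fin t, k i * f ^ ((i : ℕ) * Q) := by
        rw [hA, eval_finsetSum]
        apply Finset.sum_congr rfl
        intro i _
        rw [eval_mul, eval_C, eval_pow, eval_X, ← pow_mul, mul_comm Q]
      rw [h2]; exact hdvd
    · have h2 : eval (f ^ Q) B = f ^ q - C (f.eval 0) := by
        rw [hB, eval_sub, eval_mul, eval_C, eval_pow, eval_X, eval_C, ← pow_mul, ← pow_succ', mul_comm Q,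
          ← hqt]
      have h3 : f ^ q = expand F q f := by
        rw [← hq, FiniteField.expand_card]
      rw [h2, h3]
      have h4 : expand F q f - C (f.eval 0) = expand F q (f - C (f.eval 0)) := by
        rw [map_sub, expand_C]
      rw [h4]
      have h5 : X ∣ f - C (f.eval 0) := by
        rw [X_dvd_iff]
        simp [coeff_zero_eq_eval_zero]
      obtain ⟨w, hw⟩ := h5
      rw [hw, map_mul, expand_X]
      exact Dvd.intro _ rfl
  have hRdeg : R.natDegree ≤ t * D + (t - 1) * f.natDegree := by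
    have h1 : R.natDegree ≤ ∑ j : Fin (A.natDegree + t), Fin.addCases (motive := fun _ => ℕ)
        (fun _ : Fin A.natDegree => f.natDegree) (fun _ : Fin t => D) j := by
      rw [hR]
      unfold resultant
      apply natDegree_det_le'
      intro i j
      unfold sylvester
      rw [Matrix.of_apply]
      induction j using Fin.addCases with
      | left j =>
        rw [Fin.addCases_left, Fin.addCases_left]
        split_ifs
        · exact hBcoeff _
        · simp
      | right j =>
        rw [Fin.addCases_right, Fin.addCases_right]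
        split_ifs
        · exact hAcoeff' _
        · simp
    rw [Fin.sum_univ_add] at h1
    simp only [Fin.addCases_left, Fin.addCases_right, Finset.sum_const, Finset.card_univ,
      Fintype.card_fin, smul_eq_mul] at h1
    have h2 : A.natDegree * f.natDegree ≤ (t - 1) * f.natDegree := Nat.mul_le_mul_right _ hAdeg
    omega
  have hR0 : R = 0 := by
    by_contra h
    have h1 := natDegree_le_of_dvd hRdvd h
    rw [natDegree_X_pow] at h1
    omega
  -- over the field of fractions
  have hinj : Function.Injective (algebraMap F[X] (RatFunc F)) := RatFunc.algebraMap_injective F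
  have hAm : (A.map (algebraMap F[X] (RatFunc F))).natDegree = A.natDegree :=
    natDegree_map_eq_of_injective hinj A
  have hBlead : B.coeff t = f := by
    rw [hB, coeff_sub, coeff_C_mul, coeff_X_pow, if_pos rfl, mul_one, coeff_C, if_neg ht0.ne', sub_zero]
  have hBdeg' : B.natDegree = t := by
    apply le_antisymm hBdeg
    apply le_natDegree_of_ne_zero
    rw [hBlead]; exact hfne
  have hBm : (B.map (algebraMap F[X] (RatFunc F))).natDegree = t := by
    rw [natDegree_map_eq_of_injective hinj B, hBdeg']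
  have hres : resultant (A.map (algebraMap F[X] (RatFunc F))) (B.map (algebraMap F[X] (RatFunc F))) = 0 := by
    rw [hAm, hBm, resultant_map_map, ← hR, hR0, map_zero]
  rw [resultant_eq_zero_iff] at hres
  apply hres.2
  -- irreducibility
  obtain ⟨φ, hφ⟩ : ∃ φ : F[X] →+* RatFunc F, φ = algebraMap F[X] (RatFunc F) := ⟨_, rfl⟩
  have hφf : algebraMap F[X] (RatFunc F) f ≠ 0 := by
    rw [map_ne_zero_iff _ hinj]; exact hfne
  obtain ⟨c, hc⟩ : ∃ c : RatFunc F, c = algebraMap F[X] (RatFunc F) (C (f.eval 0)) /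
    algebraMap F[X] (RatFunc F) f := ⟨_, rfl⟩
  have hBmap : B.map (algebraMap F[X] (RatFunc F)) =
      C (algebraMap F[X] (RatFunc F) f) * (X ^ t - C c) := by
    rw [hB, Polynomial.map_sub, Polynomial.map_mul, Polynomial.map_pow, map_X, map_C, map_C, mul_sub,
      ← C_mul, hc, mul_div_cancel₀ _ hφf]
  have hirr : Irreducible (X ^ t - C c : (RatFunc F)[X]) := by
    rw [hc]
    exact irrG ht f hfne (f.eval 0) hf0 hpow
  rw [hBmap, isCoprime_comm]
  have hunit : IsUnit (C (algebraMap F[X] (RatFunc F) f)) := isUnit_C.2 (isUnit_iff_ne_zero.2 hφf)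
  rw [isCoprime_mul_unit_left_left hunit]
  rw [hirr.coprime_iff_not_dvd]
  intro h
  have h1 : A.map (algebraMap F[X] (RatFunc F)) ≠ 0 := by
    intro h2
    apply hAne
    exact Polynomial.map_injective _ hinj (by rw [h2, Polynomial.map_zero])
  have h2 := natDegree_le_of_dvd h h1
  rw [hAm, natDegree_X_pow_sub_C] at h2
  omega

end NV0h

theorem nv0 (F : Type) [Field F] [Fintype F] (t : ℕ) (ht : 2 ≤ t) (f : F[X])
    (hf0 : f.eval 0 ≠ 0) (hpow : CopG t f) (D Q : ℕ) (hQ : t * Q + 1 = Fintype.card F)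
    (hdeg : t * (D + f.natDegree) < Fintype.card F) (k : Fin t → F[X])
    (hk : ∀ i, (k i).natDegree ≤ D)
    (hdvd : (X : F[X]) ^ Fintype.card F ∣ ∑ i : Fin t, k i * f ^ ((i : ℕ) * Q)) :
    ∀ i, k i = 0 := by
  refine NV0h.core ht f hf0 rfl hQ.symm hpow k hk ?_ hdvd
  have h1 : (t - 1) * f.natDegree ≤ t * f.natDegree := Nat.mul_le_mul_right _ (by omega)
  have h2 : t * (D + f.natDegree) = t * D + t * f.natDegree := by ring
  omega


theorem nv1 (F : Type) [Field F] [Fintype F] (t : ℕ) (ht : 2 ≤ t) (f : F[X])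
    (hf0 : f.eval 0 ≠ 0) (hpow : CopG t f) (D Q : ℕ) (hQ : t * Q + 1 = Fintype.card F)
    (hdeg : t * (D + f.natDegree) < Fintype.card F) (J : ℕ) :
    ∀ k : Fin t → ℕ → F[X], (∀ i j, (k i j).natDegree ≤ D) →
    (∑ j ∈ range J, (∑ i : Fin t, k i j * f ^ ((i : ℕ) * Q)) * X ^ (j * Fintype.card F) = 0) →
    ∀ i, ∀ j < J, k i j = 0 := by
  induction J with
  | zero => intro k _ _ i j hj; omega
  | succ J ih =>
    intro k hk hsum
    rw [Finset.sum_range_succ'] at hsum
    have e1 : ∑ j ∈ range J, (∑ i : Fin t, k i (j + 1) * f ^ ((i : ℕ) * Q)) *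
        X ^ ((j + 1) * Fintype.card F) =
        X ^ Fintype.card F * ∑ j ∈ range J, (∑ i : Fin t, k i (j + 1) * f ^ ((i : ℕ) * Q)) *
          X ^ (j * Fintype.card F) := by
      rw [Finset.mul_sum]
      refine Finset.sum_congr rfl fun j _ => ?_
      rw [Nat.succ_mul, pow_add]
      ring
    rw [e1, Nat.zero_mul, pow_zero, mul_one] at hsum
    have hdvd : (X : F[X]) ^ Fintype.card F ∣ ∑ i : Fin t, k i 0 * f ^ ((i : ℕ) * Q) := by
      refine ⟨-∑ j ∈ range J, (∑ i : Fin t, k i (j + 1) * f ^ ((i : ℕ) * Q)) *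
          X ^ (j * Fintype.card F), ?_⟩
      linear_combination hsum
    have h0 := nv0 F t ht f hf0 hpow D Q hQ hdeg (fun i => k i 0) (fun i => hk i 0) hdvd
    have h00 : ∑ i : Fin t, k i 0 * f ^ ((i : ℕ) * Q) = 0 := by
      apply Finset.sum_eq_zero
      intro i _
      rw [show k i 0 = 0 from h0 i, zero_mul]
    rw [h00, add_zero] at hsum
    have hrest := (mul_eq_zero.1 hsum).resolve_left (pow_ne_zero _ X_ne_zero)
    have h1 := ih (fun i j => k i (j + 1)) (fun i j => hk i (j + 1)) hrest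
    intro i j hj
    rcases j with _ | j
    · exact h0 i
    · exact h1 i j (by omega)


end Pool.Agent.J4H30.LV.Weil
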